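import Pool.Agent.H60.SM.HOM
import Pool.Agent.H16.SM.VAL

/-!
# CON: the irreducible sections of weight 3 and negative twist are connections
-/

set_option autoImplicit false

namespace Pool.Agent.H74.SM

open MvPolynomial SC Pool.Agent.H27.LV Pool.Agent.H84.SM

section Weights

variable {k : Type} [Field k]

theorem dv_inl (i : Fin 3) : dv (X (Sum.inl i) : A2 k) = 0 := by
  unfold dv
  rw [mkDerivation_X]
  rfl

theorem dv_inr (i : Fin 3) : dv (X (Sum.inr i) : A2 k) = X (Sum.inl i) := by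
  unfold dv
  rw [mkDerivation_X]
  rfl

theorem dv_eq (c : A2 k) : dv c = ∑ i : Fin 3, X (Sum.inl i) * pderiv (Sum.inr i) c := by
  induction c using MvPolynomial.induction_on with
  | C a =>
    rw [Finset.sum_eq_zero fun i _ => by rw [pderiv_C, mul_zero]]
    exact (dv (k := k)).map_algebraMap a
  | add p q hp hq =>
    rw [map_add, hp, hq, ← Finset.sum_add_distrib]
    exact Finset.sum_congr rfl fun i _ => by rw [map_add, mul_add]
  | mul_X p j hp =>
    have h : dv (X j : A2 k) = ∑ i : Fin 3, X (Sum.inl i) * pderiv (Sum.inr i) (X j : A2 k) := by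
      rcases j with j | j
      · rw [dv_inl]
        symm
        refine Finset.sum_eq_zero fun i _ => ?_
        rw [pderiv_X_of_ne (by simp), mul_zero]
      · rw [dv_inr, Finset.sum_eq_single j]
        · rw [pderiv_X_self, mul_one]
        · intro i _ hi
          rw [pderiv_X_of_ne, mul_zero]
          intro h
          exact hi (Sum.inr_injective h).symm
        · intro h
          exact absurd (Finset.mem_univ j) h
    rw [Derivation.leibniz, hp, h, smul_eq_mul, smul_eq_mul, Finset.mul_sum, Finset.mul_sum,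
      ← Finset.sum_add_distrib]
    refine Finset.sum_congr rfl fun i _ => ?_
    rw [Derivation.leibniz, smul_eq_mul, smul_eq_mul]
    ring

theorem xa_ren (P : MvPolynomial (Fin 3) k) : (aeval xa P : A2 k) = rename Sum.inl P := by
  have h : (aeval xa : MvPolynomial (Fin 3) k →ₐ[k] A2 k) = rename Sum.inl := by
    refine MvPolynomial.algHom_ext fun i => ?_
    rw [aeval_X, rename_X]
    rfl
  rw [h]

theorem dv_xa (P : MvPolynomial (Fin 3) k) : dv (aeval xa P : A2 k) = 0 := by
  induction P using MvPolynomial.induction_on with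
  | C a =>
    rw [algHom_C]
    exact (dv (k := k)).map_algebraMap a
  | add p q hp hq => rw [map_add, map_add, hp, hq, add_zero]
  | mul_X p i hp =>
    rw [map_mul, Derivation.leibniz, hp, aeval_X]
    unfold xa
    rw [dv_inl, smul_zero, smul_zero, add_zero]

theorem BH_dv {e n : ℕ} {b : A2 k} (h : BH e (n + 1) b) : BH (e + 1) n (dv b) := by
  rw [dv_eq]
  constructor
  · refine IsWeightedHomogeneous.sum _ _ _ fun i _ => ?_
    rw [add_comm]
    refine IsWeightedHomogeneous.mul ?_ (IsWeightedHomogeneous.pderiv h.1 ?_)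
    · exact isWeightedHomogeneous_X k wx (Sum.inl i)
    · rfl
  · refine IsWeightedHomogeneous.sum _ _ _ fun i _ => ?_
    rw [← zero_add n]
    refine IsWeightedHomogeneous.mul ?_ (IsWeightedHomogeneous.pderiv h.2 ?_)
    · exact isWeightedHomogeneous_X k wy (Sum.inl i)
    · rfl

theorem weight_inl (m : Fin 3 →₀ ℕ) :
    Finsupp.weight wx (m.mapDomain Sum.inl : (Fin 3 ⊕ Fin 3) →₀ ℕ) =
      Finsupp.weight (1 : Fin 3 → ℕ) m := by
  rw [Finsupp.weight_apply, Finsupp.weight_apply, Finsupp.sum_mapDomain_index]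
  · rfl
  · intro a
    rw [zero_smul]
  · intro a b c
    rw [add_smul]

theorem wx_xa {P : MvPolynomial (Fin 3) k} {n : ℕ} :
    IsWeightedHomogeneous wx (aeval xa P : A2 k) n ↔ P.IsHomogeneous n := by
  rw [xa_ren]
  constructor
  · intro h m hm
    have h1 := h (d := m.mapDomain Sum.inl) (by
      have h2 := coeff_rename_mapDomain (Sum.inl : Fin 3 → Fin 3 ⊕ Fin 3) Sum.inl_injective P m
      exact fun h3 => hm (h2.symm.trans h3))
    rw [weight_inl] at h1
    exact h1
  · intro h m hm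
    obtain ⟨m', rfl, hm'⟩ := coeff_rename_ne_zero (Sum.inl : Fin 3 → Fin 3 ⊕ Fin 3) P m hm
    rw [weight_inl]
    exact h hm'

theorem exists_xa {c : A2 k} (h : IsWeightedHomogeneous wy c 0) :
    ∃ P : MvPolynomial (Fin 3) k, aeval xa P = c := by
  suffices h0 : ∃ P : MvPolynomial (Fin 3) k, rename Sum.inl P = c by
    obtain ⟨P, hP⟩ := h0
    exact ⟨P, (xa_ren P).trans hP⟩
  refine exists_rename_eq_of_vars_subset_range c Sum.inl Sum.inl_injective fun i hi => ?_
  obtain ⟨m, hm, him⟩ := (mem_vars_iff_mem_support i).1 (Finset.mem_coe.1 hi)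
  have h1 := h (mem_support_iff.1 hm)
  rcases i with i | i
  · exact ⟨i, rfl⟩
  · exfalso
    have h2 := Finsupp.le_weight_of_ne_zero' (w := (wy : Fin 3 ⊕ Fin 3 → ℕ))
      (Finsupp.mem_support_iff.1 him)
    rw [h1] at h2
    exact absurd h2 (by simp [wy])

/-- `x` in the ring `B2` is a retract -/
theorem dvd_of_xb {P Q : MvPolynomial (Fin 3) k} (h : (aeval xb P : B2 k) ∣ aeval xb Q) :
    P ∣ Q := by
  have h1 := map_dvd (aeval (Sum.elim X fun _ => 0) : B2 k →ₐ[k] MvPolynomial (Fin 3) k) h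
  have h2 : ∀ R : MvPolynomial (Fin 3) k, (aeval (Sum.elim X fun _ => 0) :
      B2 k →ₐ[k] MvPolynomial (Fin 3) k) (aeval xb R) = R := by
    intro R
    have h3 := Pool.Agent.H16.SM.aeval_sum_xb (L := MvPolynomial (Fin 3) k) X (fun _ => 0) R
    rw [h3, aeval_X_left_apply]
  rwa [h2, h2] at h1

end Weights

section Chart

variable {k : Type} [Field k]

theorem Psi_C (G : MvPolynomial (Fin 3) k) (d : ℕ) (l : Fin 3) (a : A2 k) :
    Psi G d l (Polynomial.C a) = Polynomial.C (aeval (Sum.elim xb (chy G l)) a) := by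
  unfold Psi
  rw [Polynomial.coe_eval₂RingHom, Polynomial.eval₂_C]
  rfl

theorem Psi_X (G : MvPolynomial (Fin 3) k) (d : ℕ) (l : Fin 3) :
    Psi G d l Polynomial.X = chw G d l := by
  unfold Psi
  rw [Polynomial.coe_eval₂RingHom, Polynomial.eval₂_X]

/-- the derivation of the chart -/
noncomputable def del (l : Fin 3) : Derivation k (B2 k) (B2 k) :=
  mkDerivation k (Sum.elim (fun _ => (0 : B2 k)) ![xb (l + 1), xb (l + 2)])

theorem del_x (l i : Fin 3) : del l (xb (k := k) i) = 0 := by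
  unfold del xb
  rw [mkDerivation_X]
  rfl

theorem del_q0 (l : Fin 3) : del l (qb (k := k) 0) = xb (l + 1) := by
  unfold del qb
  rw [mkDerivation_X]
  rfl

theorem del_q1 (l : Fin 3) : del l (qb (k := k) 1) = xb (l + 2) := by
  unfold del qb
  rw [mkDerivation_X]
  rfl

theorem del_xb (l : Fin 3) (P : MvPolynomial (Fin 3) k) : del l (aeval xb P : B2 k) = 0 := by
  induction P using MvPolynomial.induction_on with
  | C a =>
    rw [algHom_C]
    exact (del (k := k) l).map_algebraMap a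
  | add p q hp hq => rw [map_add, map_add, hp, hq, add_zero]
  | mul_X p i hp =>
    rw [map_mul, Derivation.leibniz, hp, aeval_X, del_x, smul_zero, smul_zero, add_zero]

theorem chy_l (G : MvPolynomial (Fin 3) k) (l : Fin 3) :
    chy G l l = - (gr G xb (l + 1) * qb 0 + gr G xb (l + 2) * qb 1) := by
  unfold chy
  rw [if_pos rfl]

theorem chy_l1 (G : MvPolynomial (Fin 3) k) (l : Fin 3) :
    chy G l (l + 1) = gr G xb l * qb 0 := by
  unfold chy
  rw [if_neg (by fin_cases l <;> decide), if_pos rfl]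

theorem chy_l2 (G : MvPolynomial (Fin 3) k) (l : Fin 3) :
    chy G l (l + 2) = gr G xb l * qb 1 := by
  unfold chy
  rw [if_neg (by fin_cases l <;> decide), if_neg (by fin_cases l <;> decide)]

theorem cases3 (l : Fin 3) (p : Fin 3 → Prop) (h0 : p l) (h1 : p (l + 1)) (h2 : p (l + 2)) (i : Fin 3) :
    p i := by
  have h : i = l ∨ i = l + 1 ∨ i = l + 2 := by
    fin_cases l <;> fin_cases i <;> simp
  rcases h with rfl | rfl | rfl
  · exact h0
  · exact h1
  · exact h2

theorem del_chy {G : MvPolynomial (Fin 3) k} {d : ℕ} (hG : G.IsHomogeneous d) (l i : Fin 3) :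
    (aeval xb G : B2 k) ∣ del l (chy G l i) - gr G xb l * xb i := by
  have hE := Pool.Agent.H16.SM.euler hG (xb (k := k))
  have hE' : xb l * gr G (xb (k := k)) l + xb (l + 1) * gr G xb (l + 1) +
      xb (l + 2) * gr G xb (l + 2) = (d : B2 k) * aeval xb G := by
    rw [← hE]
    exact (Pool.Agent.H16.SM.sum3 (fun i => xb i * gr G xb i) l).symm
  have hgr : ∀ j, del l (gr G (xb (k := k)) j) = 0 := fun j => del_xb l _
  refine cases3 l (fun i => (aeval xb G : B2 k) ∣ del l (chy G l i) - gr G xb l * xb i) ?_ ?_ ?_ i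
  · refine ⟨- (d : B2 k), ?_⟩
    rw [chy_l, map_neg, map_add, Derivation.leibniz, Derivation.leibniz, hgr, hgr, del_q0, del_q1]
    simp only [smul_eq_mul]
    linear_combination (-1 : B2 k) * hE'
  · refine ⟨0, ?_⟩
    rw [chy_l1, Derivation.leibniz, hgr, del_q0]
    simp only [smul_eq_mul]
    ring
  · refine ⟨0, ?_⟩
    rw [chy_l2, Derivation.leibniz, hgr, del_q1]
    simp only [smul_eq_mul]
    ring

theorem del_sub {G : MvPolynomial (Fin 3) k} {d : ℕ} (hG : G.IsHomogeneous d) (l : Fin 3)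
    (p : A2 k) : (aeval xb G : B2 k) ∣ del l (aeval (Sum.elim xb (chy G l)) p) -
      gr G xb l * aeval (Sum.elim xb (chy G l)) (dv p) := by
  induction p using MvPolynomial.induction_on with
  | C a =>
    have h1 : dv (C a : A2 k) = 0 := (dv (k := k)).map_algebraMap a
    rw [h1, map_zero, mul_zero, sub_zero, algHom_C]
    rw [(del (k := k) l).map_algebraMap a]
    exact dvd_zero _
  | add p q hp hq =>
    have h := dvd_add hp hq
    rw [map_add, map_add, map_add, map_add]
    refine (dvd_of_eq ?_).trans (h.trans (dvd_of_eq ?_))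
    · rfl
    · ring
  | mul_X p i hp =>
    have hX : (aeval xb G : B2 k) ∣ del l (aeval (Sum.elim xb (chy G l)) (X i : A2 k)) -
        gr G xb l * aeval (Sum.elim xb (chy G l)) (dv (X i : A2 k)) := by
      rcases i with i | i
      · rw [dv_inl, map_zero, mul_zero, sub_zero, aeval_X, Sum.elim_inl, del_x]
        exact dvd_zero _
      · rw [dv_inr, aeval_X, aeval_X, Sum.elim_inl, Sum.elim_inr]
        exact del_chy hG l i
    obtain ⟨u, hu⟩ := hX
    obtain ⟨v, hv⟩ := hp
    refine ⟨aeval (Sum.elim xb (chy G l)) p * u + aeval (Sum.elim xb (chy G l)) (X i : A2 k) * v,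
      ?_⟩
    rw [map_mul, Derivation.leibniz, Derivation.leibniz, map_add, smul_eq_mul, smul_eq_mul,
      smul_eq_mul, smul_eq_mul, map_mul, map_mul]
    linear_combination (aeval (Sum.elim xb (chy G l)) p) * hu +
      (aeval (Sum.elim xb (chy G l)) (X i : A2 k)) * hv

theorem sub_xa (G : MvPolynomial (Fin 3) k) (l : Fin 3) (P : MvPolynomial (Fin 3) k) :
    (aeval (Sum.elim xb (chy G l)) (aeval xa P : A2 k) : B2 k) = aeval xb P := by
  have h : ((aeval (Sum.elim xb (chy G l)) : A2 k →ₐ[k] B2 k).comp (aeval xa)) = aeval xb := by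
    refine MvPolynomial.algHom_ext fun i => ?_
    simp [xa]
  exact DFunLike.congr_fun h P

theorem sub_ya (G : MvPolynomial (Fin 3) k) (l i : Fin 3) :
    (aeval (Sum.elim xb (chy G l)) (ya i : A2 k) : B2 k) = chy G l i := by
  unfold ya
  rw [aeval_X, Sum.elim_inr]

theorem sub_fA (G : MvPolynomial (Fin 3) k) (l : Fin 3) :
    (aeval (Sum.elim xb (chy G l)) (fA G) : B2 k) = 0 := by
  have h : (aeval (Sum.elim xb (chy G l)) (fA G) : B2 k) =
      ∑ i, gr G xb i * chy G l i := by
    unfold fA dp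
    rw [map_sum]
    refine Finset.sum_congr rfl fun i _ => ?_
    rw [map_mul, sub_ya]
    unfold gr
    rw [sub_xa]
  rw [h, Pool.Agent.H16.SM.sum3 _ l, chy_l, chy_l1, chy_l2]
  ring

theorem sub_hs (G : MvPolynomial (Fin 3) k) (l : Fin 3) :
    (aeval (Sum.elim xb (chy G l)) (hs G xa ya : A2 k) : B2 k) = hs G xb (chy G l) := by
  unfold hs
  rw [map_sum]
  refine Finset.sum_congr rfl fun i _ => ?_
  rw [map_sum]
  refine Finset.sum_congr rfl fun j _ => ?_
  rw [map_mul, map_mul, sub_ya, sub_ya, sub_xa]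

theorem pd_comm (i j : Fin 3) (G : MvPolynomial (Fin 3) k) :
    pderiv i (pderiv j G) = pderiv j (pderiv i G) := by
  have h0 : ∀ a b m : Fin 3, pderiv a (pderiv b (X m : MvPolynomial (Fin 3) k)) = 0 := by
    intro a b m
    rw [pderiv_X]
    rcases eq_or_ne b m with h | h
    · rw [h, Pi.single_eq_same, pderiv_one]
    · rw [Pi.single_eq_of_ne' h, map_zero]
  have h : ⁅pderiv (R := k) i, pderiv (R := k) j⁆ = 0 := by
    apply MvPolynomial.derivation_ext
    intro m
    rw [Derivation.commutator_apply, h0, h0, sub_zero]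
    rfl
  have h1 := DFunLike.congr_fun h G
  rw [Derivation.commutator_apply] at h1
  exact sub_eq_zero.1 h1

/-- the derivative of the Hessian form -/
theorem dv_hs {G : MvPolynomial (Fin 3) k} {d : ℕ} (hG : G.IsHomogeneous d) :
    dv (hs G xa ya : A2 k) = (2 * ((d - 1 : ℕ) : A2 k)) * fA G := by
  have hE : ∀ j, dp (xa (k := k)) (gr (pderiv j G) xa) = ((d - 1 : ℕ) : A2 k) * gr G xa j :=
    fun j => Pool.Agent.H16.SM.euler hG.pderiv xa
  have h1 : dv (hs G xa ya : A2 k) = ∑ i, ∑ j, (aeval xa (pderiv i (pderiv j G)) : A2 k) *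
      (xa i * ya j + ya i * xa j) := by
    unfold hs
    rw [map_sum]
    refine Finset.sum_congr rfl fun i _ => ?_
    rw [map_sum]
    refine Finset.sum_congr rfl fun j _ => ?_
    rw [Derivation.leibniz, Derivation.leibniz, dv_xa]
    unfold ya
    rw [dv_inr, dv_inr]
    simp only [smul_eq_mul, xa]
    ring
  have h2 : ∑ i, ∑ j, (aeval xa (pderiv i (pderiv j G)) : A2 k) * (xa i * ya j + ya i * xa j) =
      2 * ∑ j, dp (xa (k := k)) (gr (pderiv j G) xa) * ya j := by
    have h3 : ∑ i, ∑ j, (aeval xa (pderiv i (pderiv j G)) : A2 k) * (xa i * ya j) =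
        ∑ j, dp (xa (k := k)) (gr (pderiv j G) xa) * ya j := by
      rw [Finset.sum_comm]
      refine Finset.sum_congr rfl fun j _ => ?_
      unfold dp gr
      rw [Finset.sum_mul]
      exact Finset.sum_congr rfl fun i _ => by ring
    have h4 : ∑ i, ∑ j, (aeval xa (pderiv i (pderiv j G)) : A2 k) * (ya i * xa j) =
        ∑ j, dp (xa (k := k)) (gr (pderiv j G) xa) * ya j := by
      refine Finset.sum_congr rfl fun i _ => ?_
      unfold dp gr
      rw [Finset.sum_mul]
      refine Finset.sum_congr rfl fun j _ => ?_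
      have h5 : pderiv i (pderiv j G) = pderiv j (pderiv i G) := pd_comm i j G
      rw [h5]
      ring
    rw [two_mul]
    nth_rewrite 1 [← h3]
    rw [← h4, ← Finset.sum_add_distrib]
    refine Finset.sum_congr rfl fun i _ => ?_
    rw [← Finset.sum_add_distrib]
    exact Finset.sum_congr rfl fun j _ => by ring
  rw [h1, h2]
  unfold fA dp
  rw [Finset.mul_sum, Finset.mul_sum]
  refine Finset.sum_congr rfl fun j _ => ?_
  have := hE j
  unfold dp at this
  rw [this]
  ring

end Chart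

theorem natCast_unit {k : Type} [Field k] [CharZero k] {σ : Type} {d : ℕ} (hd : d ≠ 0) :
    IsUnit (d : MvPolynomial σ k) := by
  have h : (d : MvPolynomial σ k) = C (d : k) := by rw [map_natCast]
  rw [h]
  exact (IsUnit.mk0 (d : k) (Nat.cast_ne_zero.2 hd)).map C

theorem pf_CON (hGPR : T_GPR) (hORK : T_ORK) (hSAB : T_SAB) (hBMF : T_BMF) : T_CON := by
  intro k _ _ _ G d hd hG hI e M' P _ hPd hPinv hPh hdvd htw
  have hd2 : 2 ≤ d := by omega
  obtain ⟨-, hgp, -, -, hder⟩ := hGPR k G d hd2 hG hI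
  obtain ⟨g, hg⟩ : ∃ g : B2 k, g = aeval xb G := ⟨_, rfl⟩
  have hgr : ∀ l, ¬ g ∣ gr G xb l := by
    intro l
    rw [hg]
    exact (hder l).2.2.1
  rw [← hg] at hgp
  have hg0 : g ≠ 0 := hgp.ne_zero
  obtain ⟨j, rfl⟩ : ∃ j, M' = j + 1 := by
    rcases Nat.eq_zero_or_pos M' with h | h
    · subst h
      simp at htw
      omega
    · exact ⟨M' - 1, by omega⟩
  have htw' : e + 3 < d * (j + 1) := by exact_mod_cast htw
  obtain ⟨c0, hc0⟩ : ∃ c, c = P.coeff 0 := ⟨_, rfl⟩
  obtain ⟨c1, hc1⟩ : ∃ c, c = P.coeff 1 := ⟨_, rfl⟩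
  have hP2 : ∀ i, 1 < i → P.coeff i = 0 := fun i hi => (hPh i).2 (by omega)
  have hB0 : BH e 3 c0 := by
    rw [hc0]
    exact (hPh 0).1 (by omega)
  have hB1 : BH e 0 c1 := by
    rw [hc1]
    exact (hPh 1).1 (by omega)
  have hPn : P.natDegree ≤ 1 := Polynomial.natDegree_le_iff_coeff_eq_zero.2 hP2
  have hPe : P = Polynomial.C c1 * Polynomial.X + Polynomial.C c0 := by
    rw [hc0, hc1]
    exact Polynomial.eq_X_add_C_of_natDegree_le_one hPn
  have hc10 : c1 ≠ 0 := by
    intro h
    rw [h, map_zero, zero_mul, zero_add] at hPe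
    have h1 : P.natDegree = 0 := by
      rw [hPe]
      exact Polynomial.natDegree_C _
    omega
  obtain ⟨σ, hσ⟩ : ∃ σ : Fin 3 → (A2 k →ₐ[k] B2 k), σ = fun l =>
    aeval (Sum.elim xb (chy G l)) := ⟨_, rfl⟩
  obtain ⟨H, hH⟩ : ∃ H : Fin 3 → B2 k, H = fun l => hs G xb (chy G l) := ⟨_, rfl⟩
  obtain ⟨ℓ, hℓ⟩ : ∃ ℓ : Fin 3 → B2 k, ℓ = fun l => xb (l + 1) * qb 1 - xb (l + 2) * qb 0 :=
    ⟨_, rfl⟩
  have hl : ∀ l, g ^ (j + 1) ∣ σ l c1 * (d * g) ∧ g ^ (j + 1) ∣ σ l c0 - σ l c1 * (H l * ℓ l) := by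
    intro l
    have h := hORK k G d hd2 hG hI e 3 (j + 1) P hPh 0 l hdvd
    rw [hPe, map_add, map_mul, Psi_C, Psi_C, Psi_X] at h
    unfold gp chw at h
    rw [← map_pow, Polynomial.C_dvd_iff_dvd_coeff] at h
    have e1 := h 1
    have e0 := h 0
    rw [Polynomial.coeff_add, Polynomial.coeff_C_mul, Polynomial.coeff_sub,
      Polynomial.coeff_C_mul, Polynomial.coeff_X_one, mul_one,
      Polynomial.coeff_C_of_ne_zero one_ne_zero, Polynomial.coeff_C_of_ne_zero one_ne_zero, add_zero,
      sub_zero] at e1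
    rw [Polynomial.coeff_add, Polynomial.coeff_C_mul, Polynomial.coeff_sub,
      Polynomial.coeff_C_mul, Polynomial.coeff_X_zero, mul_zero, Polynomial.coeff_C_zero,
      Polynomial.coeff_C_zero] at e0
    rw [hg, hσ, hH, hℓ]
    refine ⟨e1, e0.trans (dvd_of_eq ?_)⟩
    ring
  have hc1g : ∀ l, g ^ j ∣ σ l c1 := by
    intro l
    obtain ⟨u, hu⟩ := (hl l).1
    have hu2 : g * (g ^ j * u) = g * (σ l c1 * d) := by
      rw [pow_succ] at hu
      linear_combination (-1 : B2 k) * hu
    have h1 : g ^ j ∣ σ l c1 * d := ⟨u, (mul_left_cancel₀ hg0 hu2).symm⟩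
    exact (IsUnit.dvd_mul_right (natCast_unit (by omega))).1 h1
  obtain ⟨A1, hA1⟩ := exists_xa hB1.2
  have hσA : ∀ (l : Fin 3) (Q : MvPolynomial (Fin 3) k), σ l (aeval xa Q) = aeval xb Q := by
    intro l Q
    rw [hσ]
    exact sub_xa G l Q
  have hσg : ∀ l, σ l (gA G) = g := by
    intro l
    unfold gA
    rw [hσA, hg]
  have hA1h : A1.IsHomogeneous e := by
    rw [← wx_xa, hA1]
    exact hB1.1
  have hGA : G ^ j ∣ A1 := by
    apply dvd_of_xb
    rw [map_pow, ← hg, ← hσA 0 A1, hA1]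
    exact hc1g 0
  obtain ⟨A, hA⟩ := hGA
  have hA10 : A1 ≠ 0 := by
    intro h
    rw [h, map_zero] at hA1
    exact hc10 hA1.symm
  have hA0 : A ≠ 0 := by
    intro h
    rw [h, mul_zero] at hA
    exact hA10 hA
  have hG0 : G ≠ 0 := hI.ne_zero
  obtain ⟨n1, α, hn, hn1, hα⟩ := Pool.Agent.H60.SM.wh_of_mul (1 : Fin 3 → ℕ)
    (f := G ^ j) (g := A) (n := e) (by rw [← hA]; exact hA10) (by rw [← hA]; exact hA1h)
  have hn1' : n1 = d * j := IsHomogeneous.inj_right hn1 (hG.1.pow j) (pow_ne_zero _ hG0)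
  have hαd : α + 4 ≤ d := by
    rw [mul_add, mul_one] at htw'
    omega
  have hc1e : c1 = gA G ^ j * aeval xa A := by
    rw [← hA1, hA, map_mul, map_pow]
    rfl
  -- the constant coefficient
  have hc0g : ∀ l, g ^ j ∣ σ l c0 := by
    intro l
    have h1 := (hl l).2
    have h2 : g ^ j ∣ σ l c0 - σ l c1 * (H l * ℓ l) := (pow_dvd_pow g (Nat.le_succ j)).trans h1
    have h3 : g ^ j ∣ σ l c1 * (H l * ℓ l) := (hc1g l).mul_right _
    exact (dvd_iff_dvd_of_dvd_sub h2).2 h3
  obtain ⟨b, hb, hb'⟩ := hSAB k G d hd2 hG hI e 3 j c0 hB0 (by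
    intro l
    have := hc0g l
    rw [hσ, hg] at this
    exact this)
  have hBb : BH α 3 b := by
    rcases hb' with h | ⟨e', he', hBe⟩
    · rw [h]
      exact ⟨isWeightedHomogeneous_zero k _ _, isWeightedHomogeneous_zero k _ _⟩
    · have : e' = α := by omega
      rw [← this]
      exact hBe
  have hσf : ∀ l, σ l (fA G) = 0 := by
    intro l
    rw [hσ]
    exact sub_fA G l
  have hσc0 : ∀ l, σ l c0 = g ^ j * σ l b := by
    intro l
    have h1 := map_dvd (σ l) hb
    rw [hσf, zero_dvd_iff, map_sub, map_mul, map_pow, hσg] at h1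
    exact sub_eq_zero.1 h1
  have hcomp : ∀ l, g ∣ σ l b - aeval xb A * H l * ℓ l := by
    intro l
    have h1 := (hl l).2
    rw [hσc0, hc1e, map_mul, map_pow, hσg, hσA] at h1
    have h2 : g ^ j * σ l b - g ^ j * aeval xb A * (H l * ℓ l) =
      g ^ j * (σ l b - aeval xb A * H l * ℓ l) := by ring
    rw [h2, pow_succ] at h1
    exact (mul_dvd_mul_iff_left (pow_ne_zero j hg0)).1 h1
  -- invariance
  have hdelg : ∀ l, del l g = 0 := by
    intro l
    rw [hg]
    exact del_xb l G
  have hdell : ∀ l, del l (ℓ l) = 0 := by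
    intro l
    rw [hℓ]
    show del l (xb (l + 1) * qb 1 - xb (l + 2) * qb 0) = 0
    rw [map_sub, Derivation.leibniz, Derivation.leibniz, del_x, del_x, del_q0, del_q1]
    simp only [smul_eq_mul]
    ring
  have hdelH : ∀ l, g ∣ del l (H l) := by
    intro l
    have h1 := del_sub hG.1 l (hs G xa ya)
    rw [dv_hs hG.1, map_mul, sub_fA, mul_zero, mul_zero, sub_zero, sub_hs] at h1
    rw [hg, hH]
    exact h1
  have hdvb1 : ∀ l, g ∣ σ l (dv b) := by
    intro l
    have h1 := del_sub hG.1 l b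
    obtain ⟨r, hr⟩ := hcomp l
    have h2 : σ l b = aeval xb A * H l * ℓ l + g * r := by
      linear_combination hr
    have h3 : g ∣ del l (σ l b) := by
      rw [h2, map_add, Derivation.leibniz, Derivation.leibniz, Derivation.leibniz, hdelg, hdell,
        del_xb]
      simp only [smul_eq_mul, mul_zero, add_zero, zero_add]
      exact dvd_add (((hdelH l).mul_left _).mul_left _) (dvd_mul_right _ _)
    have h4 : g ∣ gr G xb l * σ l (dv b) := by
      rw [← hg] at h1
      have h5 : (σ l b) = aeval (Sum.elim xb (chy G l)) b := by rw [hσ]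
      have h6 : (σ l (dv b)) = aeval (Sum.elim xb (chy G l)) (dv b) := by rw [hσ]
      rw [← h5, ← h6] at h1
      exact (dvd_iff_dvd_of_dvd_sub h1).1 h3
    exact (hgp.dvd_or_dvd h4).resolve_left (hgr l)
  have hfA : fA G ∣ dv b := by
    obtain ⟨b', hb1, hb2⟩ := hSAB k G d hd2 hG hI (α + 1) 2 1 (dv b) (BH_dv hBb) (by
      intro l
      have := hdvb1 l
      rw [hσ, hg] at this
      rw [pow_one]
      exact this)
    rcases hb2 with h | ⟨e', he', -⟩
    · rw [h, mul_zero, sub_zero] at hb1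
      exact hb1
    · omega
  have hdvb : dv b = 0 := by
    by_contra hne
    obtain ⟨r, hr⟩ := hfA
    obtain ⟨m1, m2, hm, hm1, -⟩ := Pool.Agent.H60.SM.wh_of_mul wx (f := fA G) (g := r)
      (n := α + 1) (by rw [← hr]; exact hne) (by rw [← hr]; exact (BH_dv hBb).1)
    have hf0 : fA G ≠ 0 := by
      intro h
      rw [h, zero_mul] at hr
      exact hne hr
    have hfh : IsWeightedHomogeneous wx (fA G) (d - 1) := by
      unfold fA dp
      refine IsWeightedHomogeneous.sum _ _ _ fun i _ => ?_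
      rw [← add_zero (d - 1)]
      exact IsWeightedHomogeneous.mul (wx_xa.2 hG.1.pderiv) (isWeightedHomogeneous_X k wx _)
    have := IsWeightedHomogeneous.inj_right hf0 hm1 hfh
    omega
  -- the section is the connection
  have hc0e : c0 = gA G ^ j * b := by
    obtain ⟨hB1', -, hB3⟩ := hBMF k G d hd2 hG
    have h1 : dv (c0 - gA G ^ j * b) = 0 := by
      have h2 : dv (gA G ^ j) = 0 := by
        unfold gA
        rw [← map_pow]
        exact dv_xa _
      rw [map_sub, Derivation.leibniz, hdvb, h2, hc0, hPinv 0, smul_zero, smul_zero, add_zero,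
        sub_zero]
    have h2 := hB3 _ h1
    rw [(hB1' _).2 hb] at h2
    have h3 := IsFractionRing.injective (A2 k) (F2 k) ((map_zero _).trans h2)
    exact sub_eq_zero.1 h3.symm
  refine ⟨α, A, b, hαd, ⟨hα, hA0, hBb, hdvb, fun l => ?_⟩, ?_⟩
  · have := hcomp l
    rw [hg, hσ, hH, hℓ] at this
    exact this
  · intro K _ _ D x hx h
    rw [hPe, hc0e, hc1e] at h
    unfold evc ev at h
    rw [Polynomial.coe_eval₂RingHom, Polynomial.eval₂_add, Polynomial.eval₂_mul,
      Polynomial.eval₂_C, Polynomial.eval₂_C, Polynomial.eval₂_X] at h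
    have hx2 : ∀ Q : MvPolynomial (Fin 3) k,
        aeval (Sum.elim x fun i => D (x i)) (aeval xa Q : A2 k) = aeval x Q := by
      intro Q
      have h1 : ((aeval (Sum.elim x fun i => D (x i)) : A2 k →ₐ[k] K).comp (aeval xa)) =
          aeval x := by
        refine MvPolynomial.algHom_ext fun i => ?_
        simp [xa]
      exact DFunLike.congr_fun h1 Q
    rw [AlgHom.coe_toRingHom] at h
    rw [map_mul, map_mul, map_pow, hx2] at h
    unfold gA at h
    rw [hx2] at h
    have h2 : aeval x G ^ j * (aeval x A * dt x (fun i => D (x i)) (fun i => D (D (x i))) +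
        aeval (Sum.elim x fun i => D (x i)) b) = 0 := by
      linear_combination h
    exact (mul_eq_zero.1 h2).resolve_left (pow_ne_zero _ hx)

end Pool.Agent.H74.SM
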